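import Mathlib
import Pool.Agent.Y856.Hy.Stm
import Pool.Agent.Helper112.MultLS

/-!
# HY2 (helper856): orthogonality and reduction to primitive characters (by helper141)
-/

set_option autoImplicit false

namespace Pool.Agent.Y141.Hy

open Finset Pool.Agent.Y856.Hy

/-- the number of elements in a residue class, minus the mean -/
noncomputable def gg (e : ℕ) (P : Finset ℕ) (a : ZMod e) : ℝ :=
  ((P.filter (fun p : ℕ => (p : ZMod e) = a)).card : ℝ) -
      ((P.filter (fun p => p.Coprime e)).card : ℝ) / (Nat.totient e : ℝ)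

theorem sum_units' (e : ℕ) [NeZero e] (G : ZMod e → ℝ) :
    ∑ b ∈ (Icc 1 e).filter (fun b => b.Coprime e), G (b : ZMod e) = ∑ a : (ZMod e)ˣ, G a := by
  refine Finset.sum_bij (fun b hb => ZMod.unitOfCoprime b (mem_filter.1 hb).2)
    (fun _ _ => mem_univ _) ?_ ?_ ?_
  · intro b hb b' hb' h
    have h1 : (b : ZMod e) = b' := by
      have h0 := congrArg Units.val h
      rwa [ZMod.coe_unitOfCoprime, ZMod.coe_unitOfCoprime] at h0
    rw [ZMod.natCast_eq_natCast_iff, Nat.modEq_iff_dvd] at h1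
    have h2 := mem_Icc.1 (mem_filter.1 hb).1
    have h3 := mem_Icc.1 (mem_filter.1 hb').1
    have h4 := Int.eq_zero_of_abs_lt_dvd h1 (by rw [abs_lt]; constructor <;> omega)
    omega
  · intro u _
    have h1 := ZMod.val_coe_unit_coprime u
    have h2 : ((u : ZMod e).val : ZMod e) = u := ZMod.natCast_zmod_val _
    have h3 := ZMod.val_lt (u : ZMod e)
    rcases Nat.eq_zero_or_pos (u : ZMod e).val with h0 | h0
    · rw [h0, Nat.coprime_zero_left] at h1
      refine ⟨e, ?_, ?_⟩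
      · rw [mem_filter, mem_Icc]
        exact ⟨⟨h1.ge, le_rfl⟩, by rw [h1]; exact Nat.coprime_one_left 1⟩
      · apply Units.ext
        rw [ZMod.coe_unitOfCoprime, ZMod.natCast_self, ← h2, h0, Nat.cast_zero]
    · refine ⟨(u : ZMod e).val, ?_, ?_⟩
      · rw [mem_filter, mem_Icc]
        exact ⟨⟨h0, h3.le⟩, h1⟩
      · apply Units.ext
        rw [ZMod.coe_unitOfCoprime, h2]
  · intro b hb
    rw [ZMod.coe_unitOfCoprime]

/-- the character sum of the counting function -/
theorem char_sum (e : ℕ) [NeZero e] (P : Finset ℕ) (χ : DirichletCharacter ℂ e) :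
    ∑ a : ZMod e, χ a * ((gg e P a : ℝ) : ℂ) = if χ = 1 then 0 else ∑ p ∈ P, χ (p : ZMod e) := by
  classical
  have h1 : ∑ a : ZMod e, χ a * (((P.filter (fun p : ℕ => (p : ZMod e) = a)).card : ℝ) : ℂ) =
      ∑ p ∈ P, χ (p : ZMod e) := by
    have h2 : ∀ a : ZMod e, χ a * (((P.filter (fun p : ℕ => (p : ZMod e) = a)).card : ℝ) : ℂ) =
        ∑ p ∈ P, if (p : ZMod e) = a then χ (p : ZMod e) else 0 := by
      intro a
      rw [← Finset.sum_filter, Finset.sum_congr rfl (g := fun _ => χ a)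
        (fun p hp => by rw [(mem_filter.1 hp).2]), Finset.sum_const, nsmul_eq_mul]
      push_cast
      ring
    rw [Finset.sum_congr rfl fun a _ => h2 a, Finset.sum_comm]
    refine Finset.sum_congr rfl fun p _ => ?_
    rw [Finset.sum_ite_eq, if_pos (mem_univ _)]
  have h3 : ∑ a : ZMod e, χ a * ((gg e P a : ℝ) : ℂ) = ∑ p ∈ P, χ (p : ZMod e) -
      (∑ a : ZMod e, χ a) * ((((P.filter (fun p => p.Coprime e)).card : ℝ) /
        (Nat.totient e : ℝ) : ℝ) : ℂ) := by
    rw [← h1, Finset.sum_mul, ← Finset.sum_sub_distrib]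
    refine Finset.sum_congr rfl fun a _ => ?_
    unfold gg
    rw [Complex.ofReal_sub]
    ring
  rw [h3]
  split_ifs with h
  · subst h
    have h4 : ∑ a : ZMod e, (1 : DirichletCharacter ℂ e) a = (Nat.totient e : ℂ) := by
      rw [MulChar.sum_one_eq_card_units, ZMod.card_units_eq_totient]
    have h5 : ∑ p ∈ P, (1 : DirichletCharacter ℂ e) (p : ZMod e) =
        ((P.filter (fun p => p.Coprime e)).card : ℂ) := by
      rw [Finset.card_filter]
      push_cast
      refine Finset.sum_congr rfl fun p _ => ?_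
      split_ifs with hp
      · exact MulChar.one_apply ((ZMod.isUnit_iff_coprime p e).2 hp)
      · exact MulChar.map_nonunit _ fun hu => hp ((ZMod.isUnit_iff_coprime p e).1 hu)
    have h6 : (Nat.totient e : ℂ) ≠ 0 := by
      have := Nat.totient_pos.2 (NeZero.pos e)
      exact_mod_cast this.ne'
    rw [h4, h5]
    push_cast
    field_simp
    ring
  · rw [MulChar.sum_eq_zero_of_ne_one h, zero_mul, sub_zero]

/-- characters and the primitive characters which induce them -/
theorem prim_le (e : ℕ) [NeZero e] (P : Finset ℕ) (hP : ∀ p ∈ P, p.Prime)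
    (χ : DirichletCharacter ℂ e) :
    ‖∑ p ∈ P, χ (p : ZMod e)‖ ^ 2 ≤
      2 * ‖∑ p ∈ P, χ.primitiveCharacter (p : ZMod χ.conductor)‖ ^ 2 +
        2 * (e.primeFactors.card : ℝ) ^ 2 := by
  classical
  have h1 : ∑ p ∈ P, χ (p : ZMod e) = ∑ p ∈ P, χ.primitiveCharacter (p : ZMod χ.conductor) -
      ∑ p ∈ P.filter (fun p => ¬ p.Coprime e), χ.primitiveCharacter (p : ZMod χ.conductor) := by
    rw [eq_sub_iff_add_eq, ← Finset.sum_filter_add_sum_filter_not P (fun p => p.Coprime e)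
      (fun p => χ.primitiveCharacter (p : ZMod χ.conductor))]
    congr 1
    rw [Finset.sum_filter]
    refine Finset.sum_congr rfl fun p _ => ?_
    split_ifs with hp
    · have h2 := DirichletCharacter.primitiveCharacter_apply_of_isCoprime χ (a := (p : ℤ))
        (Nat.isCoprime_iff_coprime.2 hp)
      rw [Int.cast_natCast, Int.cast_natCast] at h2
      exact h2.symm
    · exact MulChar.map_nonunit _ fun hu => hp ((ZMod.isUnit_iff_coprime p e).1 hu)
  set A := ∑ p ∈ P, χ.primitiveCharacter (p : ZMod χ.conductor) with hA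
  set B := ∑ p ∈ P.filter (fun p => ¬ p.Coprime e), χ.primitiveCharacter (p : ZMod χ.conductor)
    with hB
  have h2 : ‖B‖ ≤ (e.primeFactors.card : ℝ) := by
    have h3 : ‖B‖ ≤ ((P.filter (fun p => ¬ p.Coprime e)).card : ℝ) := by
      rw [hB]
      refine (norm_sum_le _ _).trans ?_
      rw [← nsmul_one, ← Finset.sum_const]
      exact Finset.sum_le_sum fun p _ => DirichletCharacter.norm_le_one _ _
    refine h3.trans ?_
    have h4 : P.filter (fun p => ¬ p.Coprime e) ⊆ e.primeFactors := by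
      intro p hp
      rw [mem_filter] at hp
      have hpp := hP p hp.1
      rw [Nat.mem_primeFactors]
      refine ⟨hpp, ?_, NeZero.ne e⟩
      by_contra h5
      exact hp.2 ((Nat.Prime.coprime_iff_not_dvd hpp).2 h5)
    exact_mod_cast Finset.card_le_card h4
  rw [h1]
  have h3 : ‖A - B‖ ≤ ‖A‖ + ‖B‖ := norm_sub_le _ _
  have h4 := norm_nonneg (A - B)
  have h5 := norm_nonneg A
  have h6 := norm_nonneg B
  have h7 : ‖A - B‖ ^ 2 ≤ (‖A‖ + ‖B‖) ^ 2 := pow_le_pow_left₀ h4 h3 2
  have h8 : ‖B‖ ^ 2 ≤ (e.primeFactors.card : ℝ) ^ 2 := pow_le_pow_left₀ h6 h2 2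
  nlinarith [sq_nonneg (‖A‖ - ‖B‖)]

/-- the sum over all primitive characters -/
theorem sum_prim (e : ℕ) [NeZero e] (P : Finset ℕ) [DecidableEq (DirichletCharacter ℂ e)] :
    ∑ χ ∈ (univ : Finset (DirichletCharacter ℂ e)).filter (fun χ => χ ≠ 1),
      ‖∑ p ∈ P, χ.primitiveCharacter (p : ZMod χ.conductor)‖ ^ 2 ≤
    ∑ r ∈ e.divisors.filter (fun r => 1 < r), X P r := by
  classical
  let H : (Σ r : ℕ, DirichletCharacter ℂ r) → ℝ := fun x => ‖∑ p ∈ P, x.2 (p : ZMod x.1)‖ ^ 2
  let j : DirichletCharacter ℂ e → (Σ r : ℕ, DirichletCharacter ℂ r) :=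
    fun χ => ⟨χ.conductor, χ.primitiveCharacter⟩
  let kk : (Σ r : ℕ, DirichletCharacter ℂ r) → DirichletCharacter ℂ e := fun x =>
    if h : x.1 ∣ e then DirichletCharacter.changeLevel h x.2 else 1
  have hkj : ∀ χ, kk (j χ) = χ := by
    intro χ
    show (if h : χ.conductor ∣ e then DirichletCharacter.changeLevel h χ.primitiveCharacter
      else 1) = χ
    rw [dif_pos χ.conductor_dvd_level]
    exact DirichletCharacter.changeLevel_primitiveCharacter χ
  have hj : Function.Injective j := Function.LeftInverse.injective hkj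
  have e1 : ∑ r ∈ e.divisors.filter (fun r => 1 < r), X P r =
      ∑ x ∈ (e.divisors.filter (fun r => 1 < r)).sigma
        (fun r => (univ : Finset (DirichletCharacter ℂ r)).filter (fun χ => χ.IsPrimitive)), H x := by
    rw [Finset.sum_sigma]
    rfl
  rw [e1]
  have e2 : ∑ χ ∈ (univ : Finset (DirichletCharacter ℂ e)).filter (fun χ => χ ≠ 1),
      ‖∑ p ∈ P, χ.primitiveCharacter (p : ZMod χ.conductor)‖ ^ 2 =
      ∑ x ∈ ((univ : Finset (DirichletCharacter ℂ e)).filter (fun χ => χ ≠ 1)).image j, H x := by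
    rw [Finset.sum_image fun a _ b _ h => hj h]
  rw [e2]
  refine Finset.sum_le_sum_of_subset_of_nonneg ?_ fun _ _ _ => sq_nonneg _
  intro x hx
  obtain ⟨χ, hχ, rfl⟩ := Finset.mem_image.1 hx
  rw [mem_filter] at hχ
  rw [Finset.mem_sigma]
  refine ⟨?_, ?_⟩
  · show χ.conductor ∈ e.divisors.filter (fun r => 1 < r)
    rw [mem_filter, Nat.mem_divisors]
    refine ⟨⟨χ.conductor_dvd_level, NeZero.ne e⟩, ?_⟩
    have h1 : χ.conductor ≠ 0 := DirichletCharacter.conductor_ne_zero χ
    have h2 : χ.conductor ≠ 1 := fun h => hχ.2 (DirichletCharacter.eq_one_iff_conductor_eq_one.2 h)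
    omega
  · show χ.primitiveCharacter ∈
      (univ : Finset (DirichletCharacter ℂ χ.conductor)).filter (fun χ => χ.IsPrimitive)
    rw [mem_filter]
    exact ⟨mem_univ _, χ.primitiveCharacter_isPrimitive⟩

theorem t : S_orth := by
  intro e he P hP
  have : NeZero e := ⟨by omega⟩
  classical
  set φ : ℝ := (Nat.totient e : ℝ) with hφ
  have hφ0 : 0 < φ := by rw [hφ]; exact_mod_cast Nat.totient_pos.2 he
  let g : ZMod e → ℂ := fun a => ((gg e P a : ℝ) : ℂ)
  have h1 : ∑ b ∈ (Icc 1 e).filter (fun b => b.Coprime e),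
      (((P.filter (fun p => p ≡ b [MOD e])).card : ℝ) -
        ((P.filter (fun p => p.Coprime e)).card : ℝ) / φ) ^ 2 = ∑ a : (ZMod e)ˣ, ‖g a‖ ^ 2 := by
    rw [← sum_units' e (fun a => ‖g a‖ ^ 2)]
    refine sum_congr rfl fun b _ => ?_
    show _ = ‖((gg e P b : ℝ) : ℂ)‖ ^ 2
    rw [Complex.norm_real, Real.norm_eq_abs, sq_abs, gg]
    simp only [ZMod.natCast_eq_natCast_iff]
    rfl
  have h2 := Pool.Agent.Helper112.MLS.sum_all e g
  have h3 : ∑ χ : DirichletCharacter ℂ e, ‖∑ a : ZMod e, χ⁻¹ a * g a‖ ^ 2 =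
      ∑ χ : DirichletCharacter ℂ e, ‖∑ a : ZMod e, χ a * g a‖ ^ 2 :=
    Equiv.sum_comp (Equiv.inv (DirichletCharacter ℂ e))
      (fun χ => ‖∑ a : ZMod e, χ a * g a‖ ^ 2)
  have h4 : ∑ χ : DirichletCharacter ℂ e, ‖∑ a : ZMod e, χ a * g a‖ ^ 2 =
      ∑ χ ∈ (univ : Finset (DirichletCharacter ℂ e)).filter (fun χ => χ ≠ 1),
        ‖∑ p ∈ P, χ (p : ZMod e)‖ ^ 2 := by
    rw [Finset.sum_filter]
    refine Finset.sum_congr rfl fun χ _ => ?_
    rw [char_sum e P χ]
    by_cases h : χ = 1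
    · rw [if_pos h, if_neg (not_not.2 h), norm_zero]
      norm_num
    · rw [if_neg h, if_pos h]
  have h5 : ∑ χ ∈ (univ : Finset (DirichletCharacter ℂ e)).filter (fun χ => χ ≠ 1),
        ‖∑ p ∈ P, χ (p : ZMod e)‖ ^ 2 ≤
      2 * ∑ r ∈ e.divisors.filter (fun r => 1 < r), X P r +
        φ * (2 * (e.primeFactors.card : ℝ) ^ 2) := by
    refine (Finset.sum_le_sum fun χ _ => prim_le e P hP χ).trans ?_
    rw [Finset.sum_add_distrib, ← Finset.mul_sum, Finset.sum_const, nsmul_eq_mul]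
    refine add_le_add (mul_le_mul_of_nonneg_left (sum_prim e P) (by norm_num)) ?_
    refine mul_le_mul_of_nonneg_right ?_ (by positivity)
    rw [hφ]
    have h6 : ((univ : Finset (DirichletCharacter ℂ e)).filter (fun χ => χ ≠ 1)).card ≤
        Nat.totient e := by
      refine (Finset.card_filter_le _ _).trans (le_of_eq ?_)
      rw [Finset.card_univ, ← Nat.card_eq_fintype_card]
      exact DirichletCharacter.card_eq_totient_of_hasEnoughRootsOfUnity ℂ e
    exact_mod_cast h6
  rw [h1]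
  have h6 : φ * ∑ a : (ZMod e)ˣ, ‖g a‖ ^ 2 ≤
      2 * ∑ r ∈ e.divisors.filter (fun r => 1 < r), X P r +
        φ * (2 * (e.primeFactors.card : ℝ) ^ 2) := by
    rw [hφ, ← h2, h3, h4]
    exact h5
  have h7 : φ * ((2 / φ) * ∑ r ∈ e.divisors.filter (fun r => 1 < r), X P r +
      2 * (e.primeFactors.card : ℝ) ^ 2) =
      2 * ∑ r ∈ e.divisors.filter (fun r => 1 < r), X P r +
        φ * (2 * (e.primeFactors.card : ℝ) ^ 2) := by
    field_simp
  rw [← h7] at h6
  exact le_of_mul_le_mul_left h6 hφ0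

end Pool.Agent.Y141.Hy
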